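import Pool.Agent.Y498.SK.Sum

set_option autoImplicit false
set_option linter.all false

open MeasureTheory Set Topology

namespace Pool.Agent.Y498.SK

open Pool.Agent.Results.MP_0067de_an.SingularKernel

noncomputable section

def nn (k : ℕ) : ℕ := 224 * 4 ^ k
def PP (k : ℕ) : Finset ℤ := pts (nn k ^ 2)
def dd (k : ℕ) : ℝ := 1 / (nn k : ℝ) ^ 4
def cc (k : ℕ) : ℝ := (1 / 2) ^ k / (nn k : ℝ) ^ 2
def LL (k : ℕ) : ℝ := 64 * 2 ^ k * (nn k : ℝ) ^ 3
def TT (k : ℕ) : ℝ := 17 * (nn k : ℝ) ^ 4 + LL k ^ 8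
def aa (k : ℕ) : ℝ := ∑ i ∈ Finset.range (k + 1), TT i

lemma nn_ge (k : ℕ) : 224 ≤ nn k := by
  unfold nn
  have : 1 ≤ 4 ^ k := Nat.one_le_pow _ _ (by norm_num)
  omega

lemma nn_mono {i j : ℕ} (h : i ≤ j) : (nn i : ℝ) ≤ nn j := by
  have : nn i ≤ nn j := by
    unfold nn
    exact Nat.mul_le_mul_left _ (Nat.pow_le_pow_right (by norm_num) h)
  exact_mod_cast this

lemma nnr (k : ℕ) : (224 : ℝ) ≤ nn k := by exact_mod_cast nn_ge k

lemma nn0 (k : ℕ) : (0 : ℝ) < nn k := by linarith [nnr k]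

lemma cc_nonneg (k : ℕ) : 0 ≤ cc k := by unfold cc; positivity

lemma dd_pos (k : ℕ) : 0 < dd k := by
  have := nn0 k
  unfold dd; positivity

lemma dd_le (k : ℕ) : dd k ≤ 1 / 100 := by
  have h := nnr k
  unfold dd
  apply one_div_le_one_div_of_le (by norm_num)
  calc (100 : ℝ) ≤ 224 ^ 4 := by norm_num
    _ ≤ (nn k : ℝ) ^ 4 := pow_le_pow_left₀ (by norm_num) h 4

lemma LL_ge (k : ℕ) : 1 ≤ LL k := by
  unfold LL
  have h1 : (1 : ℝ) ≤ 2 ^ k := one_le_pow₀ (by norm_num)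
  have h2 : (1 : ℝ) ≤ (nn k : ℝ) ^ 3 := one_le_pow₀ (by linarith [nnr k])
  nlinarith

lemma LL_mono {i j : ℕ} (h : i ≤ j) : LL i ≤ LL j := by
  unfold LL
  have h1 : (2 : ℝ) ^ i ≤ 2 ^ j := pow_le_pow_right₀ (by norm_num) h
  have h2 : (nn i : ℝ) ^ 3 ≤ (nn j : ℝ) ^ 3 := pow_le_pow_left₀ (nn0 i).le (nn_mono h) 3
  have h3 : (0 : ℝ) < (nn i : ℝ) ^ 3 := by have := nn0 i; positivity
  gcongr

lemma TT_nonneg (k : ℕ) : 0 ≤ TT k := by
  have := nn0 k
  have := LL_ge k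
  unfold TT; positivity

lemma aa_add {i j : ℕ} (h : i < j) : aa i + TT j ≤ aa j := by
  unfold aa
  rw [Finset.sum_range_succ _ j]
  have : ∑ x ∈ Finset.range (i + 1), TT x ≤ ∑ x ∈ Finset.range j, TT x :=
    Finset.sum_le_sum_of_subset_of_nonneg
      (Finset.range_subset_range.2 (by omega)) (fun k _ _ => TT_nonneg k)
  linarith

lemma cc_card (k : ℕ) : cc k * ((PP k).card : ℝ) ≤ 2 * (1 / 2) ^ k := by
  have h1 : ((PP k).card : ℝ) ≤ 2 * (nn k : ℝ) ^ 2 := by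
    have := pts_card (nn k ^ 2)
    unfold PP
    exact_mod_cast this
  have h2 := nn0 k
  calc cc k * ((PP k).card : ℝ) ≤ cc k * (2 * (nn k : ℝ) ^ 2) :=
        mul_le_mul_of_nonneg_left h1 (cc_nonneg k)
    _ = 2 * (1 / 2) ^ k := by unfold cc; field_simp

lemma cc_sum : Summable fun k => cc k * ((PP k).card : ℝ) :=
  Summable.of_nonneg_of_le (fun k => mul_nonneg (cc_nonneg k) (Nat.cast_nonneg _)) cc_card
    (summable_geometric_two.mul_left 2)

lemma cc_tsum : ∑' k, cc k * ((PP k).card : ℝ) ≤ 4 := by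
  refine (cc_sum.tsum_le_tsum cc_card (summable_geometric_two.mul_left 2)).trans ?_
  rw [tsum_mul_left, tsum_geometric_two]
  norm_num

/-- the function -/
def ff : ℝ → ℝ := S PP dd cc aa

lemma pts_bound {N : ℕ} {p : ℤ} (hp : p ∈ pts N) : (0 : ℝ) ≤ p ∧ (p : ℝ) ≤ 11 * (N : ℝ) ^ 2 := by
  unfold pts at hp
  rw [Finset.mem_union, Finset.mem_image, Finset.mem_image] at hp
  have hN0 : (0 : ℝ) ≤ N := Nat.cast_nonneg N
  rcases hp with ⟨i, hi, rfl⟩ | ⟨j, hj, rfl⟩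
  · rw [Finset.mem_range] at hi
    have hi' : (i : ℝ) + 1 ≤ N := by exact_mod_cast hi
    have hi0 : (0 : ℝ) ≤ i := Nat.cast_nonneg i
    push_cast
    constructor
    · exact hi0
    · nlinarith
  · rw [Finset.mem_range] at hj
    have hj' : (j : ℝ) + 1 ≤ N := by exact_mod_cast hj
    have hj0 : (0 : ℝ) ≤ j := Nat.cast_nonneg j
    push_cast
    constructor
    · positivity
    · nlinarith

/-- All other combs are far from the window of the `k`-th one. -/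
lemma far {k : ℕ} {w : ℝ} (h1 : 0 ≤ w) (h2 : w ≤ 6 * (nn k : ℝ) ^ 4) (j : ℕ) (hj : j ≠ k) (p : ℤ)
    (hp : p ∈ PP j) : LL k ^ 8 ≤ |aa k + w - aa j - p| := by
  obtain ⟨hp0, hp1⟩ := pts_bound hp
  have hp2 : (p : ℝ) ≤ 11 * (nn j : ℝ) ^ 4 := by
    push_cast at hp1
    calc (p : ℝ) ≤ 11 * ((nn j : ℝ) ^ 2) ^ 2 := hp1
      _ = 11 * (nn j : ℝ) ^ 4 := by ring
  rcases lt_or_gt_of_ne hj with h | h
  · have h3 := aa_add h
    have h4 : (nn j : ℝ) ^ 4 ≤ (nn k : ℝ) ^ 4 := pow_le_pow_left₀ (nn0 j).le (nn_mono h.le) 4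
    have h5 : 0 ≤ (nn k : ℝ) ^ 4 := by positivity
    unfold TT at h3
    refine le_trans ?_ (le_abs_self _)
    linarith
  · have h3 := aa_add h
    have h4 : (nn k : ℝ) ^ 4 ≤ (nn j : ℝ) ^ 4 := pow_le_pow_left₀ (nn0 k).le (nn_mono h.le) 4
    have h5 : LL k ^ 8 ≤ LL j ^ 8 := pow_le_pow_left₀ (by linarith [LL_ge k]) (LL_mono h.le) 8
    unfold TT at h3
    rw [abs_sub_comm]
    refine le_trans ?_ (le_abs_self _)
    linarith

lemma LL_root (k : ℕ) : (LL k ^ 8) ^ (-(1/8) : ℝ) = 1 / LL k := by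
  have h := LL_ge k
  rw [Real.rpow_neg (by positivity), ← Real.rpow_natCast, ← Real.rpow_mul (by linarith)]
  norm_num

/-- The gap. -/
lemma gap_f {k l m : ℕ} (hl : l < (nn k ^ 2) ^ 2) (hm : m < (nn k ^ 2) ^ 2) :
    cc k / (16 * nn k) ≤ maxConv ker ff (aa k + (5 * (nn k : ℝ) ^ 4 + l / 2)) -
      maxConv ker ff (aa k + (5 * (nn k : ℝ) ^ 4 + m / 2 + 1 / 4)) := by
  have hn := nnr k
  have hn0 := nn0 k
  have hc := cc_nonneg k
  have hn4 : (1 : ℝ) ≤ (nn k : ℝ) ^ 4 := one_le_pow₀ (by linarith)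
  have hmr : (m : ℝ) ≤ (nn k : ℝ) ^ 4 := by
    have : (m : ℝ) ≤ (((nn k ^ 2) ^ 2 : ℕ) : ℝ) := by exact_mod_cast hm.le
    refine this.trans (le_of_eq ?_)
    push_cast
    ring
  have hm0 : (0 : ℝ) ≤ m := Nat.cast_nonneg m
  have h1 := max_lower (P := PP) (δ := dd) (c := cc) (a := aa) cc_nonneg cc_sum dd_pos
    (aa k + (5 * (nn k : ℝ) ^ 4 + l / 2)) k
  have h2 := max_upper (P := PP) (δ := dd) (c := cc) (a := aa) cc_nonneg cc_sum dd_pos dd_le
    (aa k + (5 * (nn k : ℝ) ^ 4 + m / 2 + 1 / 4)) k (D := LL k ^ 8)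
    (one_le_pow₀ (LL_ge k))
    (fun j hj p hp => far (by positivity) (by linarith) j hj p hp)
  rw [LL_root] at h2
  rw [add_sub_cancel_left] at h1 h2
  have h3 := gap (nn_ge k) hl hm
  have h4 := mul_le_mul_of_nonneg_left h3 hc
  rw [mul_sub] at h4
  have h5 : (∑' j, cc j * ((PP j).card : ℝ)) * (1 / LL k) ≤ 4 * (1 / LL k) :=
    mul_le_mul_of_nonneg_right cc_tsum (by have := LL_ge k; positivity)
  have h6 : 4 * (1 / LL k) = cc k / (16 * nn k) := by
    unfold LL cc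
    rw [one_div_pow]
    field_simp
    norm_num
  have h7 : cc k * (1 / 8 / (nn k : ℝ)) = cc k / (16 * nn k) + cc k / (16 * nn k) := by
    field_simp
    ring
  show _ ≤ maxConv ker (S PP dd cc aa) _ - maxConv ker (S PP dd cc aa) _
  have e1 : comb (PP k) (dd k) = comb (pts (nn k ^ 2)) (1 / (nn k : ℝ) ^ 4) := rfl
  rw [e1] at h1 h2
  linarith

lemma var_f (k : ℕ) : ENNReal.ofReal (14 * 2 ^ k) ≤ eVariationOn (maxConv ker ff) univ := by
  set g := maxConv ker ff with hg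
  set n : ℕ := nn k with hndef
  have hn0 := nn0 k
  set m : ℕ := (n ^ 2) ^ 2 with hm
  set u : ℕ → ℝ := fun i => aa k + (5 * (n : ℝ) ^ 4 + (i : ℝ) / 4) with hu
  have hmono : Monotone u := by
    intro i j hij
    have : (i : ℝ) ≤ j := by exact_mod_cast hij
    show aa k + (5 * (n : ℝ) ^ 4 + (i : ℝ) / 4) ≤ aa k + (5 * (n : ℝ) ^ 4 + (j : ℝ) / 4)
    linarith
  have hsum := eVariationOn.sum_le (f := g) (s := univ) (n := m) hmono (fun i => mem_univ _)
  refine le_trans ?_ hsum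
  have hterm : ∀ i ∈ Finset.range m, ENNReal.ofReal (cc k / (16 * nn k)) ≤
      edist (g (u (i + 1))) (g (u i)) := by
    intro i hi
    rw [Finset.mem_range] at hi
    have hi' : i < (nn k ^ 2) ^ 2 := hi
    rw [edist_dist, Real.dist_eq]
    apply ENNReal.ofReal_le_ofReal
    rcases Nat.even_or_odd' i with ⟨l, hk | hk⟩
    · have e1 : u i = aa k + (5 * (n : ℝ) ^ 4 + l / 2) := by
        show aa k + (5 * (n : ℝ) ^ 4 + (i : ℝ) / 4) = _
        rw [hk]; push_cast; ring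
      have e2 : u (i + 1) = aa k + (5 * (n : ℝ) ^ 4 + l / 2 + 1 / 4) := by
        show aa k + (5 * (n : ℝ) ^ 4 + ((i + 1 : ℕ) : ℝ) / 4) = _
        rw [hk]; push_cast; ring
      rw [e1, e2, abs_sub_comm]
      refine le_trans (gap_f (k := k) (l := l) (m := l)
        (lt_of_le_of_lt (by omega) hi') (lt_of_le_of_lt (by omega) hi')) (le_abs_self _)
    · have e1 : u i = aa k + (5 * (n : ℝ) ^ 4 + l / 2 + 1 / 4) := by
        show aa k + (5 * (n : ℝ) ^ 4 + (i : ℝ) / 4) = _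
        rw [hk]; push_cast; ring
      have e2 : u (i + 1) = aa k + (5 * (n : ℝ) ^ 4 + ((l + 1 : ℕ) : ℝ) / 2) := by
        show aa k + (5 * (n : ℝ) ^ 4 + ((i + 1 : ℕ) : ℝ) / 4) = _
        rw [hk]; push_cast; ring
      rw [e1, e2]
      refine le_trans (gap_f (k := k) (l := l + 1) (m := l)
        (lt_of_le_of_lt (by omega) hi') (lt_of_le_of_lt (by omega) hi')) (le_abs_self _)
  calc ENNReal.ofReal (14 * 2 ^ k)
      = (m : ENNReal) * ENNReal.ofReal (cc k / (16 * nn k)) := by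
        have : (m : ENNReal) = ENNReal.ofReal ((m : ℝ)) := (ENNReal.ofReal_natCast m).symm
        rw [this, ← ENNReal.ofReal_mul (by positivity)]
        congr 1
        have e : (m : ℝ) = (nn k : ℝ) ^ 4 := by rw [hm, hndef]; push_cast; ring
        rw [e]
        unfold cc
        have e2 : (nn k : ℝ) ^ 4 * ((1 / 2) ^ k / (nn k : ℝ) ^ 2 / (16 * (nn k : ℝ))) =
            (nn k : ℝ) * (1 / 2) ^ k / 16 := by
          field_simp
        rw [e2]
        unfold nn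
        push_cast
        have e3 : (4 : ℝ) ^ k = 2 ^ k * 2 ^ k := by rw [← mul_pow]; norm_num
        rw [e3, one_div_pow]
        field_simp
        norm_num
    _ = ∑ i ∈ Finset.range m, ENNReal.ofReal (cc k / (16 * nn k)) := by
        rw [Finset.sum_const, Finset.card_range, nsmul_eq_mul]
    _ ≤ _ := Finset.sum_le_sum hterm

theorem main : (∀ x, 0 ≤ ff x) ∧ (∀ x, ff x ≤ 4) ∧ eVariationOn ff univ ≤ ENNReal.ofReal 8 ∧
    eVariationOn (maxConv ker ff) univ = ⊤ := by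
  refine ⟨fun x => S_nonneg cc_nonneg x, fun x => (S_le cc_nonneg cc_sum x).trans cc_tsum, ?_, ?_⟩
  · refine (S_var cc_nonneg cc_sum dd_pos).trans (ENNReal.ofReal_le_ofReal ?_)
    linarith [cc_tsum]
  · by_contra hne
    obtain ⟨k, hk⟩ := pow_unbounded_of_one_lt (eVariationOn (maxConv ker ff) univ).toReal
      (one_lt_two (α := ℝ))
    have h1 := var_f k
    have h2 := ENNReal.toReal_mono hne h1
    rw [ENNReal.toReal_ofReal (by positivity)] at h2
    have h3 : (0 : ℝ) < 2 ^ k := by positivity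
    linarith

end

end Pool.Agent.Y498.SK
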