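import Pool.Agent.Results.MP_0067de_an.SingularKernel

set_option autoImplicit false

open MeasureTheory Set Topology
set_option linter.all false

namespace Pool.Agent.Y498.SK

open Pool.Agent.Results.MP_0067de_an.SingularKernel

noncomputable section

/-- the convolution of the comb with the dilated kernel -/
def Phi (P : Finset ℤ) (δ t x : ℝ) : ℝ := ∫ y, (t⁻¹ * ker ((x - y) / t)) * |comb P δ y|

lemma Phi_nonneg {P : Finset ℤ} {δ t x : ℝ} (ht : 0 < t) : 0 ≤ Phi P δ t x := by
  unfold Phi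
  refine integral_nonneg fun y => ?_
  exact mul_nonneg (mul_nonneg (inv_nonneg.2 ht.le) (ker_nonneg _)) (abs_nonneg _)

lemma Phi_le_card {P : Finset ℤ} {δ t x : ℝ} (ht : 0 < t) (hδ : 0 < δ) : Phi P δ t x ≤ P.card :=
  conv_le_card ht hδ P x

/-- The convolution is small far away from the comb. -/
lemma Phi_far {P : Finset ℤ} {δ t x D : ℝ} (ht : 0 < t) (hδ : 0 < δ) (hδ1 : δ ≤ 1 / 100)
    (hD : 1 ≤ D) (h : ∀ p ∈ P, D ≤ |x - p|) : Phi P δ t x ≤ P.card * D ^ (-(1/8) : ℝ) := by
  unfold Phi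
  rw [conv_formula ht hδ, ← nsmul_eq_mul, ← Finset.sum_const]
  refine Finset.sum_le_sum fun p hp => ?_
  have hp' := h p hp
  have hD0 : 0 < D := by linarith
  have hDp : 0 ≤ D ^ (-(1/8) : ℝ) := (Real.rpow_pos_of_pos hD0 _).le
  rcases le_or_gt t (D / 4) with ht' | ht'
  · have habs : D / t ≤ |(x - p) / t| := by
      rw [abs_div, abs_of_pos ht]
      exact div_le_div_of_nonneg_right hp' ht.le
    have h1 : 1 + δ / t < D / t - 1 := by
      rw [lt_sub_iff_add_lt]
      have e : 1 + δ / t + 1 = (2 * t + δ) / t := by field_simp; ring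
      rw [e]
      exact div_lt_div_of_pos_right (by linarith) ht
    have h2 : 1 + δ / t < |(x - p) / t - 1| := by
      have := abs_sub_abs_le_abs_sub ((x - p) / t) 1
      rw [abs_one] at this
      linarith
    have h3 : 1 + δ / t < |(x - p) / t + 1| := by
      have h4 : |(x - p) / t| ≤ |(x - p) / t + 1| + 1 := by
        calc |(x - p) / t| = |((x - p) / t + 1) - 1| := by ring_nf
          _ ≤ |(x - p) / t + 1| + |1| := abs_sub _ _
          _ = _ := by rw [abs_one]
      linarith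
    rw [J_eq_zero h2, J_eq_zero h3]
    linarith
  · have hρ : 0 < δ / t := div_pos hδ ht
    have hρ1 : δ / t ≤ 1 / D := by
      rw [div_le_div_iff₀ ht hD0]
      nlinarith
    have hρ2 : δ / t ≤ 1 := hρ1.trans (by rw [div_le_one hD0]; exact hD)
    have h1 := J_le (c := (x - p) / t - 1) hρ hρ2
    have h2 := J_le (c := (x - p) / t + 1) hρ hρ2
    have h3 : (δ / t) ^ (1 / 8 : ℝ) ≤ D ^ (-(1/8) : ℝ) := by
      rw [Real.rpow_neg hD0.le, ← Real.inv_rpow hD0.le]
      refine Real.rpow_le_rpow hρ.le ?_ (by norm_num)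
      rwa [one_div] at hρ1
    linarith

/-- the variation of a comb along a monotone sequence -/
lemma comb_var_real (P : Finset ℤ) {δ : ℝ} (hδ : 0 < δ) {v : ℕ → ℝ} (hv : Monotone v) (n : ℕ) :
    ∑ i ∈ Finset.range n, |comb P δ (v (i+1)) - comb P δ (v i)| ≤ 2 * P.card := by
  have h1 := (eVariationOn.sum_le (f := comb P δ) (s := univ) (n := n) hv
    (fun i => mem_univ _)).trans (comb_var P hδ)
  have e : ∀ i, edist (comb P δ (v (i + 1))) (comb P δ (v i)) =
      ENNReal.ofReal |comb P δ (v (i + 1)) - comb P δ (v i)| := by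
    intro i
    rw [edist_dist, Real.dist_eq]
  simp_rw [e] at h1
  rw [← ENNReal.ofReal_sum_of_nonneg (fun i _ => abs_nonneg _)] at h1
  exact (ENNReal.ofReal_le_ofReal_iff (by positivity)).1 h1

lemma comb_le (P : Finset ℤ) (δ y : ℝ) : comb P δ y ≤ P.card := by
  unfold comb
  calc _ ≤ ∑ p ∈ P, (1:ℝ) := Finset.sum_le_sum fun p _ =>
        indicator_le_self' (fun _ _ => zero_le_one) y
    _ = P.card := by simp

lemma comb_measurable (P : Finset ℤ) (δ : ℝ) : Measurable (comb P δ) := by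
  unfold comb
  exact Finset.measurable_sum _ fun p _ => measurable_const.indicator measurableSet_Icc

/-! The sum of translated combs. -/

variable {P : ℕ → Finset ℤ} {δ c a : ℕ → ℝ}

/-- the sum of the combs -/
def S (P : ℕ → Finset ℤ) (δ c a : ℕ → ℝ) (y : ℝ) : ℝ := ∑' k, c k * comb (P k) (δ k) (y - a k)

lemma S_summable (hc : ∀ k, 0 ≤ c k) (hs : Summable fun k => c k * (P k).card) (y : ℝ) :
    Summable fun k => c k * comb (P k) (δ k) (y - a k) :=
  Summable.of_nonneg_of_le (fun k => mul_nonneg (hc k) (comb_nonneg _ _ _))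
    (fun k => mul_le_mul_of_nonneg_left (comb_le _ _ _) (hc k)) hs

lemma S_nonneg (hc : ∀ k, 0 ≤ c k) (y : ℝ) : 0 ≤ S P δ c a y :=
  tsum_nonneg fun k => mul_nonneg (hc k) (comb_nonneg _ _ _)

lemma S_le (hc : ∀ k, 0 ≤ c k) (hs : Summable fun k => c k * (P k).card) (y : ℝ) :
    S P δ c a y ≤ ∑' k, c k * (P k).card :=
  (S_summable hc hs y).tsum_le_tsum (fun k => mul_le_mul_of_nonneg_left (comb_le _ _ _) (hc k)) hs

/-- The convolution of the sum. -/
lemma conv_S (hc : ∀ k, 0 ≤ c k) (hs : Summable fun k => c k * (P k).card) {t : ℝ} (ht : 0 < t)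
    (hδ : ∀ k, 0 < δ k) (x : ℝ) :
    ∫ y, (t⁻¹ * ker ((x - y) / t)) * |S P δ c a y| = ∑' k, c k * Phi (P k) (δ k) t (x - a k) := by
  have hint : ∀ k, ∫ y, (t⁻¹ * ker ((x - y) / t)) * (c k * comb (P k) (δ k) (y - a k)) =
      c k * Phi (P k) (δ k) t (x - a k) := by
    intro k
    unfold Phi
    rw [← integral_const_mul]
    rw [← integral_sub_right_eq_self (fun y => c k * ((t⁻¹ * ker ((x - a k - y) / t)) *
      |comb (P k) (δ k) y|)) (a k)]
    refine integral_congr_ae (Filter.Eventually.of_forall fun y => ?_)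
    simp only
    rw [abs_of_nonneg (comb_nonneg _ _ _)]
    have e : x - a k - (y - a k) = x - y := by ring
    rw [e]
    ring
  have hnn : ∀ k y, 0 ≤ (t⁻¹ * ker ((x - y) / t)) * (c k * comb (P k) (δ k) (y - a k)) := by
    intro k y
    exact mul_nonneg (mul_nonneg (inv_nonneg.2 ht.le) (ker_nonneg _))
      (mul_nonneg (hc k) (comb_nonneg _ _ _))
  have hI : ∀ k, Integrable (fun y => (t⁻¹ * ker ((x - y) / t)) *
      (c k * comb (P k) (δ k) (y - a k))) := by
    intro k
    refine (integrable_scaled ht x).mul_bdd (c := c k * (P k).card) ?_ ?_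
    · exact (((comb_measurable _ _).comp (measurable_id.sub_const _)).const_mul _).aestronglyMeasurable
    · refine Filter.Eventually.of_forall fun y => ?_
      rw [Real.norm_of_nonneg (mul_nonneg (hc k) (comb_nonneg _ _ _))]
      exact mul_le_mul_of_nonneg_left (comb_le _ _ _) (hc k)
  have hsum : Summable fun k => ∫ y, ‖(t⁻¹ * ker ((x - y) / t)) *
      (c k * comb (P k) (δ k) (y - a k))‖ := by
    have e : ∀ k, ∫ y, ‖(t⁻¹ * ker ((x - y) / t)) * (c k * comb (P k) (δ k) (y - a k))‖ =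
        c k * Phi (P k) (δ k) t (x - a k) := by
      intro k
      rw [← hint k]
      refine integral_congr_ae (Filter.Eventually.of_forall fun y => ?_)
      simp only
      rw [Real.norm_of_nonneg (hnn k y)]
    simp_rw [e]
    exact Summable.of_nonneg_of_le (fun k => mul_nonneg (hc k) (Phi_nonneg ht))
      (fun k => mul_le_mul_of_nonneg_left (Phi_le_card ht (hδ k)) (hc k)) hs
  have h := hasSum_integral_of_summable_integral_norm hI hsum
  have e1 : ∀ y, (t⁻¹ * ker ((x - y) / t)) * |S P δ c a y| =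
      ∑' k, (t⁻¹ * ker ((x - y) / t)) * (c k * comb (P k) (δ k) (y - a k)) := by
    intro y
    rw [abs_of_nonneg (S_nonneg hc y)]
    unfold S
    rw [tsum_mul_left]
  simp_rw [e1]
  rw [← h.tsum_eq]
  exact tsum_congr hint

lemma Phi_summable (hc : ∀ k, 0 ≤ c k) (hs : Summable fun k => c k * (P k).card) {t : ℝ}
    (ht : 0 < t) (hδ : ∀ k, 0 < δ k) (x : ℝ) :
    Summable fun k => c k * Phi (P k) (δ k) t (x - a k) :=
  Summable.of_nonneg_of_le (fun k => mul_nonneg (hc k) (Phi_nonneg ht))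
    (fun k => mul_le_mul_of_nonneg_left (Phi_le_card ht (hδ k)) (hc k)) hs

lemma conv_S_le (hc : ∀ k, 0 ≤ c k) (hs : Summable fun k => c k * (P k).card)
    (hδ : ∀ k, 0 < δ k) (x : ℝ) (t : {t : ℝ // 0 < t}) :
    ∫ y, ((t : ℝ)⁻¹ * ker ((x - y) / (t : ℝ))) * |S P δ c a y| ≤ ∑' k, c k * (P k).card := by
  rw [conv_S hc hs t.2 hδ x]
  exact (Phi_summable hc hs t.2 hδ x).tsum_le_tsum
    (fun k => mul_le_mul_of_nonneg_left (Phi_le_card t.2 (hδ k)) (hc k)) hs

/-- Lower bound for the maximal function of the sum. -/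
lemma max_lower (hc : ∀ k, 0 ≤ c k) (hs : Summable fun k => c k * (P k).card)
    (hδ : ∀ k, 0 < δ k) (x : ℝ) (k : ℕ) :
    c k * maxConv ker (comb (P k) (δ k)) (x - a k) ≤ maxConv ker (S P δ c a) x := by
  have hne : Nonempty {t : ℝ // 0 < t} := ⟨⟨1, one_pos⟩⟩
  unfold maxConv
  rw [Real.mul_iSup_of_nonneg (hc k)]
  refine ciSup_le fun t => ?_
  refine le_trans ?_ (le_ciSup (f := fun t : {t : ℝ // 0 < t} =>
    ∫ y, ((t : ℝ)⁻¹ * ker ((x - y) / (t : ℝ))) * |S P δ c a y|)
    ⟨_, by rintro _ ⟨t, rfl⟩; exact conv_S_le hc hs hδ x t⟩ t)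
  rw [conv_S hc hs t.2 hδ x]
  exact (Phi_summable hc hs t.2 hδ x).le_tsum k fun j _ => mul_nonneg (hc j) (Phi_nonneg t.2)

/-- Upper bound for the maximal function of the sum. -/
lemma max_upper (hc : ∀ k, 0 ≤ c k) (hs : Summable fun k => c k * (P k).card)
    (hδ : ∀ k, 0 < δ k) (hδ1 : ∀ k, δ k ≤ 1 / 100) (x : ℝ) (k : ℕ) {D : ℝ} (hD : 1 ≤ D)
    (h : ∀ j, j ≠ k → ∀ p ∈ P j, D ≤ |x - a j - p|) :
    maxConv ker (S P δ c a) x ≤ c k * maxConv ker (comb (P k) (δ k)) (x - a k) +
      (∑' j, c j * (P j).card) * D ^ (-(1/8) : ℝ) := by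
  classical
  have hne : Nonempty {t : ℝ // 0 < t} := ⟨⟨1, one_pos⟩⟩
  have hDp : 0 ≤ D ^ (-(1/8) : ℝ) := (Real.rpow_pos_of_pos (by linarith) _).le
  refine ciSup_le fun t => ?_
  rw [conv_S hc hs t.2 hδ x]
  have h1 : ∀ j, c j * Phi (P j) (δ j) t (x - a j) ≤
      (if j = k then c k * Phi (P k) (δ k) t (x - a k) else 0) +
        (c j * (P j).card) * D ^ (-(1/8) : ℝ) := by
    intro j
    by_cases hj : j = k
    · subst hj
      rw [if_pos rfl]
      have : 0 ≤ (c j * ((P j).card : ℝ)) * D ^ (-(1/8) : ℝ) :=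
        mul_nonneg (mul_nonneg (hc j) (Nat.cast_nonneg _)) hDp
      linarith
    · rw [if_neg hj, zero_add, mul_assoc]
      exact mul_le_mul_of_nonneg_left (Phi_far t.2 (hδ j) (hδ1 j) hD (h j hj)) (hc j)
  have hs2 : Summable fun j => (if j = k then c k * Phi (P k) (δ k) t (x - a k) else 0) :=
    summable_of_ne_finset_zero (s := {k}) (by
      intro j hj
      rw [if_neg (by simpa using hj)])
  have hs3 := hs.mul_right (D ^ (-(1/8) : ℝ))
  refine ((Phi_summable hc hs t.2 hδ x).tsum_le_tsum h1 (hs2.add hs3)).trans ?_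
  rw [hs2.tsum_add hs3, tsum_ite_eq, tsum_mul_right]
  have h2 : Phi (P k) (δ k) t (x - a k) ≤ maxConv ker (comb (P k) (δ k)) (x - a k) :=
    le_ciSup (bddAbove_conv (hδ k) (P k) (x - a k)) t
  have h3 := mul_le_mul_of_nonneg_left h2 (hc k)
  linarith

/-- The variation of the sum. -/
lemma S_var (hc : ∀ k, 0 ≤ c k) (hs : Summable fun k => c k * (P k).card)
    (hδ : ∀ k, 0 < δ k) :
    eVariationOn (S P δ c a) univ ≤ ENNReal.ofReal (2 * ∑' k, c k * (P k).card) := by
  unfold eVariationOn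
  apply iSup_le
  rintro ⟨n, u, hu, _⟩
  show ∑ i ∈ Finset.range n, edist (S P δ c a (u (i + 1))) (S P δ c a (u i)) ≤ _
  have e : ∀ i, edist (S P δ c a (u (i + 1))) (S P δ c a (u i)) =
      ENNReal.ofReal |S P δ c a (u (i + 1)) - S P δ c a (u i)| := by
    intro i
    rw [edist_dist, Real.dist_eq]
  simp_rw [e]
  rw [← ENNReal.ofReal_sum_of_nonneg (fun i _ => abs_nonneg _)]
  apply ENNReal.ofReal_le_ofReal
  have hsi : ∀ i, Summable fun k => c k * |comb (P k) (δ k) (u (i+1) - a k) -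
      comb (P k) (δ k) (u i - a k)| := by
    intro i
    refine Summable.of_nonneg_of_le (fun k => mul_nonneg (hc k) (abs_nonneg _)) (fun k => ?_) hs
    refine mul_le_mul_of_nonneg_left ?_ (hc k)
    rw [abs_le]
    have h1 := comb_nonneg (P k) (δ k) (u (i+1) - a k)
    have h2 := comb_nonneg (P k) (δ k) (u i - a k)
    have h3 := comb_le (P k) (δ k) (u (i+1) - a k)
    have h4 := comb_le (P k) (δ k) (u i - a k)
    constructor <;> linarith
  have h1 : ∀ i, |S P δ c a (u (i + 1)) - S P δ c a (u i)| ≤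
      ∑' k, c k * |comb (P k) (δ k) (u (i+1) - a k) - comb (P k) (δ k) (u i - a k)| := by
    intro i
    unfold S
    rw [← (S_summable hc hs _).tsum_sub (S_summable hc hs _)]
    have e2 : ∀ k, c k * |comb (P k) (δ k) (u (i+1) - a k) - comb (P k) (δ k) (u i - a k)| =
        ‖c k * comb (P k) (δ k) (u (i+1) - a k) - c k * comb (P k) (δ k) (u i - a k)‖ := by
      intro k
      rw [← mul_sub, norm_mul, Real.norm_of_nonneg (hc k), Real.norm_eq_abs]
    have := hsi i
    simp_rw [e2] at this ⊢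
    rw [← Real.norm_eq_abs]
    exact norm_tsum_le_tsum_norm this
  calc ∑ i ∈ Finset.range n, |S P δ c a (u (i + 1)) - S P δ c a (u i)|
      ≤ ∑ i ∈ Finset.range n, ∑' k, c k * |comb (P k) (δ k) (u (i+1) - a k) -
          comb (P k) (δ k) (u i - a k)| := Finset.sum_le_sum fun i _ => h1 i
    _ = ∑' k, ∑ i ∈ Finset.range n, c k * |comb (P k) (δ k) (u (i+1) - a k) -
          comb (P k) (δ k) (u i - a k)| := (Summable.tsum_finsetSum fun i _ => hsi i).symm
    _ ≤ ∑' k, 2 * (c k * (P k).card) := by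
        refine Summable.tsum_le_tsum (fun k => ?_) (summable_sum fun i _ => hsi i) (hs.mul_left 2)
        rw [← Finset.mul_sum]
        have h2 := comb_var_real (P k) (hδ k) (v := fun i => u i - a k)
          (fun i j hij => sub_le_sub_right (hu hij) _) n
        have h3 := mul_le_mul_of_nonneg_left h2 (hc k)
        linarith
    _ = 2 * ∑' k, c k * (P k).card := tsum_mul_left

end

end Pool.Agent.Y498.SK
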